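import Pool.Agent.W5h23.PW.Main3

/-!
# `P = W` and finite étale covers: invariant classes in tensor powers
-/

set_option autoImplicit false
set_option linter.all false

open Module TensorProduct Filter Topology Pool.Agent.W5h23.PW

namespace Pool.Agent.W5h91.PC

variable {𝔾 : Type} [Mul 𝔾]

section plain

variable {V V' V'' : Type} [AddCommGroup V] [Module ℚ V] [AddCommGroup V'] [Module ℚ V']
  [AddCommGroup V''] [Module ℚ V''] {N : Type} [Group N]

/-- the representation `ρ` preserves the filtration `F` -/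
def Stable (ρ : Representation ℚ N V) (F : ℕ → Submodule ℚ V) : Prop :=
  ∀ n k x, x ∈ F k → ρ n x ∈ F k

/-- the isomorphism `e` carries the tensor product of the filtrations `A` and `B` to the filtration `C` -/
def IsConv (e : V ⊗[ℚ] V' ≃ₗ[ℚ] V'') (A : ℕ → Submodule ℚ V) (B : ℕ → Submodule ℚ V')
    (C : ℕ → Submodule ℚ V'') : Prop :=
  ∀ k, C k = (conv A B k).map (e : V ⊗[ℚ] V' →ₗ[ℚ] V'')

/-- the isomorphism `e` is compatible with the representations -/
def Intertwines (e : V ⊗[ℚ] V' ≃ₗ[ℚ] V'') (ρ : Representation ℚ N V) (ρ' : Representation ℚ N V')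
    (ρ'' : Representation ℚ N V'') : Prop :=
  ∀ n x y, ρ'' n (e (x ⊗ₜ[ℚ] y)) = e (ρ n x ⊗ₜ[ℚ] ρ' n y)

/-- an element which is invariant under `ρ` lies in a step of the filtration `F` if and only if its image
under `ι` lies in the same step of the filtration `F'` -/
def SamePos (ρ : Representation ℚ N V) (ι : V →ₗ[ℚ] V') (F : ℕ → Submodule ℚ V)
    (F' : ℕ → Submodule ℚ V') : Prop :=
  ∀ x, (∀ g, ρ g x = x) → ∀ k, (ι x ∈ F' k ↔ x ∈ F k)

end plain

/-- An action of a group `N` on the intersection cohomology of the moduli spaces `M(X, G)` (for a fixed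
`X` and all `G`), which preserves the two filtrations and is compatible with the Künneth isomorphisms.
(Example: the automorphisms of a finite étale cover `X → Y`.) -/
structure Action (T : Theory 𝔾) (N : Type) [Group N] where
  ρ : ∀ G, Representation ℚ N (T.IH G)
  stabW : ∀ G, Stable (ρ G) (T.W G)
  stabP : ∀ G, Stable (ρ G) (T.P G)
  kun : ∀ G G', ∃ e : T.IH G ⊗[ℚ] T.IH G' ≃ₗ[ℚ] T.IH (G * G'),
    IsConv e (T.W G) (T.W G') (T.W (G * G')) ∧ IsConv e (T.P G) (T.P G') (T.P (G * G')) ∧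
      Intertwines e (ρ G) (ρ G') (ρ (G * G'))

section conv

variable {V V' : Type} [AddCommGroup V] [Module ℚ V] [AddCommGroup V'] [Module ℚ V']

theorem tmul_mem_conv {A : ℕ → Submodule ℚ V} {B : ℕ → Submodule ℚ V'} {i j : ℕ} {x : V} {y : V'}
    (hx : x ∈ A i) (hy : y ∈ B j) : x ⊗ₜ[ℚ] y ∈ conv A B (i + j) :=
  Submodule.mem_iSup_of_mem i (Submodule.mem_iSup_of_mem j (Submodule.mem_iSup_of_mem rfl
    (Submodule.apply_mem_map₂ (TensorProduct.mk ℚ V V') hx hy)))

theorem conv_van {A : ℕ → Submodule ℚ V} {B : ℕ → Submodule ℚ V'} {f : Dual ℚ V} {g : Dual ℚ V'}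
    {a b : ℕ} (hf : ∀ k < a, ∀ x ∈ A k, f x = 0) (hg : ∀ k < b, ∀ x ∈ B k, g x = 0) {k : ℕ}
    (hk : k < a + b) : conv A B k ≤ LinearMap.ker
      (TensorProduct.lift ((LinearMap.mul ℚ ℚ).compl₁₂ f g)) := by
  refine iSup_le fun i => iSup_le fun j => iSup_le fun hij => ?_
  rw [Submodule.map₂_le]
  intro x hx y hy
  rw [LinearMap.mem_ker, TensorProduct.mk_apply, TensorProduct.lift.tmul, LinearMap.compl₁₂_apply,
    LinearMap.mul_apply']
  by_cases h : i < a
  · rw [hf i h x hx, zero_mul]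
  · rw [hg j (by omega) y hy, mul_zero]

/-- a functional which vanishes on `S` and not on finitely many given vectors outside `S` -/
theorem exists_functional {ι : Type} [Finite ι] (S : Submodule ℚ V) (u : ι → V) (hu : ∀ i, u i ∉ S) :
    ∃ f : Dual ℚ V, (∀ x ∈ S, f x = 0) ∧ ∀ i, f (u i) ≠ 0 := by
  obtain ⟨f, hf⟩ := Module.exists_dual_forall_apply_ne_zero (K := ℚ) (fun i => S.mkQ (u i))
    (fun i h => hu i ((Submodule.Quotient.mk_eq_zero S).1 h))
  refine ⟨f.comp S.mkQ, fun x hx => ?_, fun i => hf i⟩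
  rw [LinearMap.comp_apply, Submodule.mkQ_apply, (Submodule.Quotient.mk_eq_zero S).2 hx, map_zero]

end conv

variable {T : Theory 𝔾} {N : Type} [Group N] (A : Action T N)

/-- the chosen Künneth isomorphism -/
noncomputable def E (G G' : 𝔾) : T.IH G ⊗[ℚ] T.IH G' ≃ₗ[ℚ] T.IH (G * G') := (A.kun G G').choose

/-- the class of `v 0 ⊗ ⋯ ⊗ v n` -/
noncomputable def tp (G : 𝔾) : ∀ n : ℕ, (Fin (n + 1) → T.IH G) → T.IH (pw G n)
  | 0, v => v 0
  | n + 1, v => E A (pw G n) G (tp G n (fun i => v i.castSucc) ⊗ₜ[ℚ] v (Fin.last (n + 1)))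

/-- the functional `f ⊗ ⋯ ⊗ f` -/
noncomputable def fn (G : 𝔾) (f : Dual ℚ (T.IH G)) : ∀ n : ℕ, Dual ℚ (T.IH (pw G n))
  | 0 => f
  | n + 1 => (TensorProduct.lift ((LinearMap.mul ℚ ℚ).compl₁₂ (fn G f n) f)).comp
      ((E A (pw G n) G).symm : T.IH (pw G n * G) →ₗ[ℚ] T.IH (pw G n) ⊗[ℚ] T.IH G)

theorem fn_tp (G : 𝔾) (f : Dual ℚ (T.IH G)) (n : ℕ) (v : Fin (n + 1) → T.IH G) :
    fn A G f n (tp A G n v) = ∏ i, f (v i) := by
  induction n with
  | zero =>
    change f (v 0) = ∏ i : Fin 1, f (v i)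
    rw [Fin.prod_univ_one]
  | succ n ih =>
    rw [Fin.prod_univ_castSucc, ← ih (fun i => v i.castSucc)]
    change (TensorProduct.lift ((LinearMap.mul ℚ ℚ).compl₁₂ (fn A G f n) f))
      ((E A (pw G n) G).symm (E A (pw G n) G _)) = _
    rw [LinearEquiv.symm_apply_apply, TensorProduct.lift.tmul, LinearMap.compl₁₂_apply,
      LinearMap.mul_apply']

theorem rho_tp (G : 𝔾) (g : N) (n : ℕ) (v : Fin (n + 1) → T.IH G) :
    A.ρ (pw G n) g (tp A G n v) = tp A G n (fun i => A.ρ G g (v i)) := by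
  induction n with
  | zero => rfl
  | succ n ih =>
    change A.ρ (pw G n * G) g (E A (pw G n) G _) = E A (pw G n) G _
    rw [← ih]
    exact (A.kun (pw G n) G).choose_spec.2.2 g _ _

/-- `F` is compatible with the Künneth isomorphisms -/
def Kun (F : ∀ G, ℕ → Submodule ℚ (T.IH G)) : Prop :=
  ∀ G G' k, F (G * G') k = (conv (F G) (F G') k).map
      (E A G G' : T.IH G ⊗[ℚ] T.IH G' →ₗ[ℚ] T.IH (G * G'))

theorem kunW : Kun A T.W := fun G G' => (A.kun G G').choose_spec.1

theorem kunP : Kun A T.P := fun G G' => (A.kun G G').choose_spec.2.1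

variable {F : ∀ G, ℕ → Submodule ℚ (T.IH G)}

theorem tp_mem (hF : Kun A F) (G : 𝔾) {b : ℕ} (n : ℕ) (v : Fin (n + 1) → T.IH G)
    (hv : ∀ i, v i ∈ F G b) : tp A G n v ∈ F (pw G n) ((n + 1) * b) := by
  induction n with
  | zero =>
    rw [zero_add, one_mul]
    exact hv 0
  | succ n ih =>
    change E A (pw G n) G _ ∈ F (pw G n * G) ((n + 1 + 1) * b)
    rw [hF, show (n + 1 + 1) * b = (n + 1) * b + b by ring]
    exact Submodule.mem_map_of_mem (tmul_mem_conv (ih _ fun i => hv _) (hv _))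

theorem fn_van (hF : Kun A F) (G : 𝔾) {b : ℕ} {f : Dual ℚ (T.IH G)}
    (hf : ∀ k < b, ∀ x ∈ F G k, f x = 0) (n : ℕ) :
    ∀ k < (n + 1) * b, ∀ x ∈ F (pw G n) k, fn A G f n x = 0 := by
  induction n with
  | zero =>
    intro k hk
    exact hf k (by omega)
  | succ n ih =>
    intro k hk
    change ∀ x : T.IH (pw G n * G), x ∈ F (pw G n * G) k → _
    intro x hx
    rw [hF] at hx
    obtain ⟨y, hy, rfl⟩ := Submodule.mem_map.1 hx
    have h1 := conv_van (k := k) ih hf (by
      have : (n + 1 + 1) * b = (n + 1) * b + b := by ring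
      omega) hy
    change (TensorProduct.lift ((LinearMap.mul ℚ ℚ).compl₁₂ (fn A G f n) f))
      ((E A (pw G n) G).symm (E A (pw G n) G y)) = 0
    rw [LinearEquiv.symm_apply_apply]
    exact LinearMap.mem_ker.1 h1

/-- the invariant element: for `x` whose levels are `b` for `W` and `a` for `P` there is an invariant
element of `IH(M(X, G^(n+1)))` with the levels `(n + 1) b` and `(n + 1) a`, if `|N|` divides `n + 1` -/
theorem exists_invariant [Finite N] (G : 𝔾) (n l : ℕ) (hn : n + 1 = Nat.card N * l) (x : T.IH G)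
    (hx : x ≠ 0) :
    ∃ s : T.IH (pw G n), (∀ g, A.ρ (pw G n) g s = s) ∧
      ∀ F : ∀ G, ℕ → Submodule ℚ (T.IH G), Kun A F → (∀ G, Monotone (F G)) →
        (∀ G n k x, x ∈ F G k → A.ρ G n x ∈ F G k) → ∀ b, x ∈ F G b → (∀ k < b, x ∉ F G k) →
        ∀ k, s ∈ F (pw G n) k ↔ (n + 1) * b ≤ k := by
  classical
  haveI : Fintype N := Fintype.ofFinite N
  have hcard : Fintype.card (Fin (n + 1)) = Fintype.card (N × Fin l) := by
    rw [Fintype.card_fin, Fintype.card_prod, Fintype.card_fin, hn, Nat.card_eq_fintype_card]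
  let σ : Fin (n + 1) ≃ N × Fin l := Fintype.equivOfCardEq hcard
  let v : Fin (n + 1) → T.IH G := fun i => A.ρ G (σ i).1 x
  let s : T.IH (pw G n) := ∑ h : N, A.ρ (pw G n) h (tp A G n v)
  have hval : ∀ f : Dual ℚ (T.IH G), fn A G f n s =
      Fintype.card N * (∏ g : N, f (A.ρ G g x)) ^ l := by
    intro f
    have h1 : ∀ h : N, fn A G f n (A.ρ (pw G n) h (tp A G n v)) =
        (∏ g : N, f (A.ρ G g x)) ^ l := by
      intro h
      rw [rho_tp, fn_tp]
      have h2 : ∀ i, f (A.ρ G h (v i)) = (fun z : N × Fin l => f (A.ρ G (h * z.1) x)) (σ i) := by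
        intro i
        change f (A.ρ G h (A.ρ G (σ i).1 x)) = f (A.ρ G (h * (σ i).1) x)
        rw [map_mul]
        rfl
      rw [Finset.prod_congr rfl fun i _ => h2 i, Equiv.prod_comp σ
        (fun z : N × Fin l => f (A.ρ G (h * z.1) x)), Fintype.prod_prod_type]
      simp only [Finset.prod_const, Finset.card_univ, Fintype.card_fin]
      rw [Finset.prod_pow]
      congr 1
      exact Equiv.prod_comp (Equiv.mulLeft h) (fun g => f (A.ρ G g x))
    rw [map_sum, Finset.sum_congr rfl fun h _ => h1 h, Finset.sum_const, Finset.card_univ,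
      nsmul_eq_mul]
  refine ⟨s, fun g => ?_, ?_⟩
  · rw [map_sum]
    have h1 : ∀ h : N, A.ρ (pw G n) g (A.ρ (pw G n) h (tp A G n v)) =
        A.ρ (pw G n) (g * h) (tp A G n v) := by
      intro h
      rw [map_mul]
      rfl
    rw [Finset.sum_congr rfl fun h _ => h1 h]
    exact Equiv.sum_comp (Equiv.mulLeft g) (fun h => A.ρ (pw G n) h (tp A G n v))
  · intro F hF hmono hst b hxb hxk k
    constructor
    · intro hs
      by_contra hk
      push Not at hk
      have hnot : ∀ g : N, A.ρ G g x ∉ (if b = 0 then (⊥ : Submodule ℚ (T.IH G)) else F G (b - 1)) := by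
        intro g hg
        have hinv : A.ρ G g⁻¹ (A.ρ G g x) = x := by
          have : A.ρ G g⁻¹ (A.ρ G g x) = A.ρ G (g⁻¹ * g) x := by
            rw [map_mul]
            rfl
          rw [this, inv_mul_cancel, _root_.map_one]
          rfl
        by_cases hb : b = 0
        · rw [if_pos hb, Submodule.mem_bot] at hg
          rw [hg, map_zero] at hinv
          exact hx hinv.symm
        · rw [if_neg hb] at hg
          have h3 := hst G g⁻¹ _ _ hg
          rw [hinv] at h3
          exact hxk (b - 1) (by omega) h3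
      obtain ⟨f, hf0, hf1⟩ := exists_functional _ _ hnot
      have hfv : ∀ k < b, ∀ y ∈ F G k, f y = 0 := by
        intro k hk y hy
        apply hf0
        rw [if_neg (by omega)]
        exact hmono G (by omega) hy
      have h1 := fn_van A hF G hfv n k hk s hs
      rw [hval] at h1
      rcases mul_eq_zero.1 h1 with h2 | h2
      · exact Fintype.card_ne_zero (α := N) (by exact_mod_cast h2)
      · exact (Finset.prod_ne_zero_iff.2 fun g _ => hf1 g) (pow_eq_zero_iff (by
          rintro rfl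
          simp at hn) |>.1 h2)
    · intro hk
      refine hmono _ hk ?_
      refine Submodule.sum_mem _ fun h _ => hst _ _ _ _ (tp_mem A hF G n v fun i => hst _ _ _ _ hxb)

end Pool.Agent.W5h91.PC
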