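import Pool.Agent.W5h91.PC.A

/-!
# `P = W` and finite étale covers
-/

set_option autoImplicit false
set_option linter.all false

open Module TensorProduct Filter Topology Pool.Agent.W5h23.PW

namespace Pool.Agent.W5h91.PC

/-- There is a map `ι` from `IH(M(X', G))` to `IH(M(X, H))` such that an element of `IH(M(X', G))` which is
invariant under `N` has the same position as its image in both filtrations. -/
def Embeds {𝔾 : Type} [Mul 𝔾] {T' : Theory 𝔾} {N : Type} [Group N] (A : Action T' N) (T : Theory 𝔾)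
    (G H : 𝔾) : Prop :=
  ∃ ι : T'.IH G →ₗ[ℚ] T.IH H,
    SamePos (A.ρ G) ι (T'.W G) (T.W H) ∧ SamePos (A.ρ G) ι (T'.P G) (T.P H)

/-- `𝕏` is a class of smooth projective varieties, `𝔾` a class of reductive groups (not necessarily
connected) which is closed under products and wreath products `wr G m = G ≀ S_m`, and `T X` is the
intersection cohomology of the moduli spaces `M(X, G)` with its two filtrations, see `Theory`.
`IsCover X' X m` says that `X'` is a connected finite étale cover of `X` of degree `m`, or a deformation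
of such a cover (`M_B(X', G)` depends on `π_1(X')` only, and `P` is locally constant in smooth families).
The homomorphisms from `π_1(X)` to `G ≀ S_m` whose image in `S_m` is the monodromy of the cover `X'` are,
up to conjugation, the homomorphisms from `π_1(X')` to `G`, so `M(X, G ≀ S_m)` has an open and closed part
`M(X', G) / N`, `N = Aut(X'/X)`. The field `cover` is this fact in terms of cohomology: a map `ι` from
`IH(M(X', G))` to `IH(M(X, G ≀ S_m))` (the projection to the invariants of `N`, followed by an inclusion as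
a direct summand), which on the invariants of `N` is strictly compatible with the two filtrations. -/
structure Covers (𝕏 𝔾 : Type) [Mul 𝔾] where
  T : 𝕏 → Theory 𝔾
  wr : 𝔾 → ℕ → 𝔾
  IsCover : 𝕏 → 𝕏 → ℕ → Prop
  pos : ∀ X' X m, IsCover X' X m → 0 < m
  cover : ∀ X' X m, IsCover X' X m → ∃ (N : Type) (_ : Group N) (_ : Finite N)
    (A : Action (T X') N), ∀ G, Embeds A (T X) G (wr G m)

/-- `W_{2k} ⊆ P_{k+e}` for all `k` -/
def WinP {𝔾 : Type} [Mul 𝔾] (T : Theory 𝔾) (G : 𝔾) (e : ℕ) : Prop :=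
  ∀ k, T.W G (2 * k) ≤ T.P G (k + e)

/-- `W_{2k+1} ⊆ P_k` for all `k` -/
def OddInP {𝔾 : Type} [Mul 𝔾] (T : Theory 𝔾) (G : 𝔾) : Prop := ∀ k, T.W G (2 * k + 1) ≤ T.P G k

/-- `P_k ⊆ W_{2(k+e)}` for all `k` -/
def PinW {𝔾 : Type} [Mul 𝔾] (T : Theory 𝔾) (G : 𝔾) (e : ℕ) : Prop :=
  ∀ k, T.P G k ≤ T.W G (2 * (k + e))

/-- For a property `Q G e` of groups and bounds: there is a function `e(n) = o(n)` such that
`Q G (e(r(G)))` holds for all `G`. -/
def Weakly {𝔾 : Type} (r : 𝔾 → ℕ) (Q : 𝔾 → ℕ → Prop) : Prop :=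
  ∃ e : ℕ → ℕ, Tendsto (fun n => (e n : ℝ) / n) atTop (𝓝 0) ∧ ∀ G, Q G (e (r G))

variable {𝕏 𝔾 : Type} [Mul 𝔾]

theorem pair (C : Covers 𝕏 𝔾) {X' X : 𝕏} {m : ℕ} (hc : C.IsCover X' X m) :
    ∃ N > 0, ∀ (G : 𝔾) (n e : ℕ), N ∣ n + 1 → 2 * e < n →
      (WinP (C.T X) (C.wr (pw G n) m) e → OddInP (C.T X') G) ∧
      (PinW (C.T X) (C.wr (pw G n) m) e → PinW (C.T X') G 0) := by
  obtain ⟨N, _, _, A, hι⟩ := C.cover X' X m hc
  refine ⟨Nat.card N, Nat.card_pos, fun G n e hN he => ?_⟩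
  obtain ⟨l, hl⟩ := hN
  have hlev : ∀ F : ℕ → Submodule ℚ ((C.T X').IH G), (∃ n, F n = ⊤) → ∀ x, ∃ a, x ∈ F a ∧
      ∀ k < a, x ∉ F k := by
    classical
    intro F hF x
    have h1 : ∃ a, x ∈ F a := by
      obtain ⟨n, hn⟩ := hF
      exact ⟨n, by rw [hn]; exact Submodule.mem_top⟩
    exact ⟨Nat.find h1, Nat.find_spec h1, fun k hk => Nat.find_min h1 hk⟩
  obtain ⟨ι, hι⟩ := hι (pw G n)
  have key : ∀ x : (C.T X').IH G, x ≠ 0 → ∃ a b : ℕ, (∀ k, x ∈ (C.T X').W G k → b ≤ k) ∧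
      x ∈ (C.T X').W G b ∧ x ∈ (C.T X').P G a ∧ (∀ k, x ∈ (C.T X').P G k → a ≤ k) ∧
      ∃ s, (∀ k, s ∈ (C.T X).W (C.wr (pw G n) m) k ↔ (n + 1) * b ≤ k) ∧
        ∀ k, s ∈ (C.T X).P (C.wr (pw G n) m) k ↔ (n + 1) * a ≤ k := by
    intro x hx
    obtain ⟨s, hs, hs'⟩ := exists_invariant A G n l hl x hx
    obtain ⟨b, hb, hb'⟩ := hlev _ ((C.T X').topW G) x
    obtain ⟨a, ha, ha'⟩ := hlev _ ((C.T X').topP G) x
    refine ⟨a, b, fun k hk => ?_, hb, ha, fun k hk => ?_, ι s, fun k => ?_, fun k => ?_⟩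
    · by_contra h
      exact hb' k (by omega) hk
    · by_contra h
      exact ha' k (by omega) hk
    · rw [hι.1 s hs k]
      exact hs' _ (kunW A) (C.T X').monoW A.stabW b hb hb' k
    · rw [hι.2 s hs k]
      exact hs' _ (kunP A) (C.T X').monoP A.stabP a ha ha' k
  constructor
  · intro h k x hx
    by_contra hxP
    have hx0 : x ≠ 0 := by
      rintro rfl
      exact hxP (Submodule.zero_mem _)
    obtain ⟨a, b, hb, _, hPa, _, s, hsW, hsP⟩ := key x hx0
    have hb1 := hb _ hx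
    have ha1 : k + 1 ≤ a := by
      by_contra hak
      exact hxP ((C.T X').monoP G (by omega) hPa)
    have h1 : s ∈ (C.T X).W (C.wr (pw G n) m) (2 * ((n + 1) * k + (n + 2) / 2)) := by
      rw [hsW]
      have h2 := Nat.mul_le_mul_left (n + 1) hb1
      have h3 : (n + 1) * (2 * k + 1) = 2 * ((n + 1) * k) + (n + 1) := by ring
      omega
    have h2 := (hsP _).1 (h _ h1)
    have h3 := Nat.mul_le_mul_left (n + 1) ha1
    have h4 : (n + 1) * (k + 1) = (n + 1) * k + (n + 1) := by ring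
    omega
  · intro h k x hx
    by_contra hxW
    have hx0 : x ≠ 0 := by
      rintro rfl
      exact hxW (Submodule.zero_mem _)
    obtain ⟨a, b, _, hWb, _, ha, s, hsW, hsP⟩ := key x hx0
    have ha1 := ha _ hx
    have hb1 : 2 * k + 1 ≤ b := by
      by_contra hbk
      exact hxW ((C.T X').monoW G (by omega) hWb)
    have h1 : s ∈ (C.T X).P (C.wr (pw G n) m) ((n + 1) * k) := by
      rw [hsP]
      exact Nat.mul_le_mul_left (n + 1) ha1
    have h2 := (hsW _).1 (h _ h1)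
    have h3 := Nat.mul_le_mul_left (n + 1) hb1
    have h4 : (n + 1) * (2 * k + 1) = 2 * ((n + 1) * k) + (n + 1) := by ring
    omega

theorem exists_n {e : ℕ → ℕ} (he : Tendsto (fun n => (e n : ℝ) / n) atTop (𝓝 0)) {c N : ℕ}
    (hc : 0 < c) (hN : 0 < N) : ∃ n, N ∣ n + 1 ∧ 2 * e (c * (n + 1)) < n := by
  have hc' : (0 : ℝ) < c := by exact_mod_cast hc
  obtain ⟨M, hM⟩ := eventually_atTop.1 (he.eventually_lt_const (show (0 : ℝ) < 1 / (4 * c) by positivity))
  have h1 : 0 < N * (M + 2) := by positivity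
  refine ⟨N * (M + 2) - 1, ⟨M + 2, by omega⟩, ?_⟩
  have h2 : N * (M + 2) - 1 + 1 = N * (M + 2) := by omega
  rw [h2]
  have h3 : M + 2 ≤ N * (M + 2) := Nat.le_mul_of_pos_left _ hN
  have h4 : N * (M + 2) ≤ c * (N * (M + 2)) := Nat.le_mul_of_pos_left _ hc
  have h5 := hM (c * (N * (M + 2))) (by omega)
  set L := N * (M + 2) with hL
  have hLpos : (0 : ℝ) < L := by exact_mod_cast h1
  have h6 : (4 * e (c * L) : ℝ) < L := by
    push_cast at h5
    rw [div_lt_div_iff₀ (by positivity) (by positivity)] at h5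
    nlinarith
  have h7 : 4 * e (c * L) < L := by exact_mod_cast h6
  omega

end Pool.Agent.W5h91.PC
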